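import Pool.Agent.H275Z.AntiMain

set_option autoImplicit false

namespace Pool.Agent.Results.MP_8f6377_al.AntipodeNotInjective

/-- There is a Hopf algebra over the complex numbers, finitely generated as an algebra, whose antipode
is not injective, hence not bijective. -/
theorem result : ∃ (H : Type) (_ : Ring H) (_ : HopfAlgebra ℂ H),
    Algebra.FiniteType ℂ H ∧ ¬ Function.Injective (HopfAlgebra.antipode ℂ : H →ₗ[ℂ] H) :=
  Pool.Agent.H275Z.Anti.main ℂ

end Pool.Agent.Results.MP_8f6377_al.AntipodeNotInjective
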